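import Pool.Agent.Helper2.CF.Wsp
import Pool.Agent.Helper54.CF.Sl
import Pool.Agent.Helper88.MT.Extremal

/-!
CF-5b: the scalar of the Casimir operator is positive.
-/

open Module LieModule LieAlgebra LieAlgebra.IsKilling

namespace CF

open MTP MTP.MF

variable {V : Type*} [AddCommGroup V] [Module ℂ V] [FiniteDimensional ℂ V]
  {L : Type*} [LieRing L] [LieAlgebra ℂ L] [FiniteDimensional ℂ L] [IsKilling ℂ L]
  {H : LieSubalgebra ℂ L} [H.IsCartanSubalgebra] [LieRingModule L V] [LieModule ℂ L V]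

private lemma tau_pos88 (hfaith : ∀ x : L, (∀ u : V, ⁅x, u⁆ = 0) → x = 0)
    {I : Type*} [Fintype I] (B : WB (V := V) H I)
    (hint : ∀ i (α : H.root), ∃ a : ℤ, B.w i (coroot α.1) = (a : ℂ)) {α : H.root} {e f : L}
    (ht : IsSl2Triple ((coroot α.1 : H) : L) e f) (he : e ∈ rootSpace H α.1) :
    ∃ r : ℝ, 0 < r ∧ traceForm ℂ L V e f = (r : ℂ) := by
  choose n hn using fun i => hint i α
  have h1 := tf_coroot_self (V := V) ht he
  have h2 : traceForm ℂ H V (coroot α.1) (coroot α.1) =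
      traceForm ℂ L V ((coroot α.1 : H) : L) ((coroot α.1 : H) : L) := rfl
  rw [h2, B.traceForm_apply] at h1
  simp only [hn] at h1
  refine ⟨(∑ i, (n i : ℝ) * n i) / 2, ?_, ?_⟩
  · obtain ⟨i, j, hij⟩ := B.root_apply hfaith α
    have h3 := hij (coroot α.1)
    rw [hn, hn, root_apply_coroot (H.isNonZero_coe_root α)] at h3
    have h4 : (n j : ℤ) = 2 + n i := by exact_mod_cast h3
    have h5 : 0 < ∑ i, (n i : ℝ) * n i := by
      rcases eq_or_ne (n i) 0 with h0 | h0
      · apply Finset.sum_pos' (fun l _ => mul_self_nonneg _)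
        refine ⟨j, Finset.mem_univ _, ?_⟩
        rw [h4, h0]
        norm_num
      · apply Finset.sum_pos' (fun l _ => mul_self_nonneg _)
        refine ⟨i, Finset.mem_univ _, ?_⟩
        have h6 : (n i : ℝ) ≠ 0 := by exact_mod_cast h0
        exact mul_self_pos.2 h6
    linarith
  · push_cast
    linear_combination -(1 / 2) * h1

/-- CF-5b: the scalar is positive unless the weight space is killed by the positive root vectors. -/
theorem cas_pos (hfaith : ∀ x : L, (∀ u : V, ⁅x, u⁆ = 0) → x = 0)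
    {I : Type*} [Fintype I] (B : WB (V := V) H I)
    (hint : ∀ i (α : H.root), ∃ a : ℤ, B.w i (coroot α.1) = (a : ℂ))
    (ea fa : H.root → L) (ht : ∀ α : H.root, IsSl2Triple ((coroot α.1 : H) : L) (ea α) (fa α))
    (he : ∀ α, ea α ∈ rootSpace H α.1) (hf : ∀ α, fa α ∈ rootSpace H (-α.1)) (k : I) (A : Finset H.root) {a : ℂ}
    (ha : ∀ v ∈ wsp B k, ∑ α ∈ A, (traceForm ℂ L V (ea α) (fa α))⁻¹ • ⁅fa α, ⁅ea α, v⁆⁆ = a • v) :
    ∃ r : ℝ, 0 ≤ r ∧ a = (r : ℂ) ∧ (r = 0 → ∀ α ∈ A, ∀ v ∈ wsp B k, ⁅ea α, v⁆ = 0) := by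
  classical
  obtain ⟨U, hUdef⟩ : ∃ U, U = wsp B k := ⟨_, rfl⟩
  -- the action
  have hEnd : ∀ α : H.root, ∃ r : ℝ, 0 ≤ r ∧ ∃ hU : ∀ u ∈ U, (toEnd ℂ L V (fa α) * toEnd ℂ L V (ea α)) u ∈ U,
      LinearMap.trace ℂ U ((toEnd ℂ L V (fa α) * toEnd ℂ L V (ea α)).restrict hU) = (r : ℂ) ∧
      (r = 0 → ∀ u ∈ U, ⁅ea α, u⁆ = 0) := by
    intro α
    obtain ⟨n, hn⟩ := hint k α
    have hU : ∀ u ∈ U, (toEnd ℂ L V (fa α) * toEnd ℂ L V (ea α)) u ∈ U := by
      intro u hu
      rw [hUdef] at hu ⊢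
      intro h
      have h1 : ⁅(h : L), ea α⁆ = α.1 h • ea α := lie_root (he α) h
      have h2 : ⁅(h : L), fa α⁆ = -(α.1 h) • fa α := by
        have := lie_eq_smul_of_mem_rootSpace (hf α) h
        simpa using this
      have h3 : ⁅(h : L), u⁆ = B.w k h • u := hu h
      rw [Module.End.mul_apply, toEnd_apply_apply, toEnd_apply_apply, leibniz_lie, leibniz_lie (h : L) (ea α),
        h1, h2, h3, smul_lie, smul_lie, lie_add, lie_smul, lie_smul, lie_smul]
      module
    obtain ⟨r, hr0, hr1, hr2⟩ := trace_fe (h := toEnd ℂ L V ((coroot α.1 : H) : L))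
      (e := toEnd ℂ L V (ea α)) (f := toEnd ℂ L V (fa α))
      (by
        ext u
        have h1 := leibniz_lie ((coroot α.1 : H) : L) (ea α) u
        rw [(ht α).lie_h_e_nsmul] at h1
        simp only [LinearMap.sub_apply, Module.End.mul_apply, toEnd_apply_apply, LinearMap.smul_apply]
        rw [h1, nsmul_lie]
        module)
      (by
        ext u
        have h1 := leibniz_lie ((coroot α.1 : H) : L) (fa α) u
        rw [(ht α).lie_h_f_nsmul] at h1
        simp only [LinearMap.sub_apply, Module.End.mul_apply, toEnd_apply_apply, LinearMap.smul_apply,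
          LinearMap.neg_apply]
        rw [h1, neg_lie, nsmul_lie]
        module)
      (by
        ext u
        have h1 := leibniz_lie (ea α) (fa α) u
        rw [(ht α).lie_e_f] at h1
        simp only [LinearMap.sub_apply, Module.End.mul_apply, toEnd_apply_apply]
        rw [h1]
        abel)
      U (a := n)
      (by
        intro u hu
        rw [hUdef] at hu
        rw [toEnd_apply_apply, hu (coroot α.1), hn])
      hU
    exact ⟨r, hr0, hU, hr1, fun h0 u hu => hr2 h0 u hu⟩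
  choose r hr0 hU hr1 hr2 using hEnd
  have hτ : ∀ α : H.root, ∃ t : ℝ, 0 < t ∧ traceForm ℂ L V (ea α) (fa α) = (t : ℂ) := fun α =>
    tau_pos88 hfaith B hint (ht α) (he α)
  choose t ht0 ht1 using hτ
  -- the trace
  have hsum : ∑ α ∈ A, (traceForm ℂ L V (ea α) (fa α))⁻¹ •
      ((toEnd ℂ L V (fa α) * toEnd ℂ L V (ea α)).restrict (hU α)) = a • (LinearMap.id : U →ₗ[ℂ] U) := by
    ext ⟨u, hu⟩
    have h1 := ha u (hUdef ▸ hu)
    rw [LinearMap.sum_apply, LinearMap.smul_apply, LinearMap.id_apply, AddSubmonoidClass.coe_finsetSum,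
      Submodule.coe_smul, ← h1]
    refine Finset.sum_congr rfl fun α _ => ?_
    rw [LinearMap.smul_apply, Submodule.coe_smul]
    rfl
  have htr := congrArg (LinearMap.trace ℂ U) hsum
  rw [map_sum, map_smul, LinearMap.trace_id] at htr
  simp only [map_smul, hr1, ht1, smul_eq_mul] at htr
  -- the dimension
  have hdim : 0 < finrank ℂ U := by
    have hk : B.v k ∈ U := by
      rw [hUdef]
      exact fun h => B.lie_v k h
    rw [finrank_pos_iff_exists_ne_zero]
    exact ⟨⟨B.v k, hk⟩, fun h => B.v.ne_zero k (congrArg Subtype.val h)⟩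
  have hdim' : (0 : ℝ) < finrank ℂ U := by exact_mod_cast hdim
  refine ⟨(∑ α ∈ A, (t α)⁻¹ * r α) / finrank ℂ U, ?_, ?_, ?_⟩
  · exact div_nonneg (Finset.sum_nonneg fun α _ => mul_nonneg (inv_nonneg.2 (ht0 α).le) (hr0 α)) hdim'.le
  · push_cast
    rw [htr]
    have : (finrank ℂ U : ℂ) ≠ 0 := by exact_mod_cast hdim.ne'
    field_simp
  · intro h0 α hα v hv
    have h1 : ∑ α ∈ A, (t α)⁻¹ * r α = 0 := by
      rcases div_eq_zero_iff.1 h0 with h | h
      · exact h
      · exact absurd h hdim'.ne'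
    have h2 := (Finset.sum_eq_zero_iff_of_nonneg
      (fun α _ => mul_nonneg (inv_nonneg.2 (ht0 α).le) (hr0 α))).1 h1 α hα
    have h3 : r α = 0 := by
      rcases mul_eq_zero.1 h2 with h | h
      · exact absurd h (inv_ne_zero (ht0 α).ne')
      · exact h
    exact hr2 α h3 v (hUdef ▸ hv)

end CF
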